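import Pool.Agent.Helper53.CL.Iface

/-!
# CL-Z1: assembly of the analytic theorem on conformal surfaces (C6)

Proof.  If `S` is empty then `∫ b = 0`, contradiction.  Let `C, b, δ` be given, WLOG `δ ≤ 1`, suppose that for all
`t ∈ (0, δ)` all closed geodesics of `w_t = exp (t b)` have `∫ b ≥ 0`.  `b` is bounded (`|b| ≤ K`: `S` is compact, `b`
continuous since it is continuous in the charts).
(1) Area(t) = ∫ exp(t b) dA.  `1 + x ≤ exp x ≤ 1 + x + x^2` for `|x| ≤ 1` gives `t₁ ∈ (0, δ)` with Area(t₁) < Area(0) and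
`t₀ ∈ (0, t₁)` with Area(t₀) > Area(t₁).  Put `s_i = √Area(t_i)`, `s₁ < s₀`.
(2) `abar > 0` from `Weyl`, `d = abar (s₀ - s₁) / 4`; `p ≥ p0(t₀), p0(t₁), 1` with
`(abar s₀ - d) √p - (t₁ - t₀) > (abar s₁ + d) √p`, i.e. `abar (s₀ - s₁) / 2 * √p > t₁ - t₀`.
(3) monotonicity (`width_le`): if `w ≤ M w'`, `M ≥ 1`, then `en ε w U ≤ M en ε w' U`, `sub ε w' c ⊆ sub ε w (M c)`, so
`width ε w p ≤ M width ε w' p` (the sets of the infimum are non empty by `Large`, bounded below by `0`, as `sub ε w c = ∅`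
for `c < 0`, and the empty set has `GenusLE ∅ p`).  So for `ε < ε0` and `t ∈ [t₀, t₁]`:
`width ε w_t p ≤ M (abar s₁ + d) √p =: E`, `M = exp (K (t₁ - t₀))`.
(4) claim: there is `ε2 > 0` such that for all `ε ∈ (0, ε2)`, `t ∈ [t₀, t₁]` and all weak `U` for `w_t` with
`en = width ε w_t p`: `-1 ≤ (1/ε) ∫ w_t b Wt(U.fst)`.  Otherwise there are `ε_j → 0`, `t_j`, `U_j` violating it; `Reg`
gives `u_j`; `Wt (u - π) = 1 - cos u` for `u ∈ [0, 2π]` (`Wt_sub_pi`), so `en ε w U = C.energy ε w u` (`en_eq_energy`) `≤ E`;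
pass to a subsequence with `t_j → τ ∈ [t₀, t₁] ⊆ (0, δ)` and apply `Def` with `η = 1/2`: contradiction.
(5) choose `ε < ε0, ε2` with the lower bound of `Weyl` at `t₀` and apply `Env` with `δ := 1`:
`(abar s₀ - d) √p - (t₁ - t₀) ≤ width w_{t₁} ≤ (abar s₁ + d) √p`, contradiction.
-/

namespace Pool.Agent.Helper53.CL

open MeasureTheory Filter Topology Metric Iface
open scoped ContDiff Real

universe u

theorem Wt_sub_pi {u : ℝ} (h0 : 0 ≤ u) (h1 : u ≤ 2 * π) : Wt (u - π) = 1 - Real.cos u := by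
  have h : |u - π| ≤ π := by
    rw [abs_le]
    constructor <;> linarith
  unfold Wt
  rw [if_pos h, Real.cos_sub_pi]
  ring

theorem Z1_Wt_nonneg (v : ℝ) : 0 ≤ Wt v := by
  unfold Wt
  split_ifs
  · have := Real.neg_one_le_cos v
    linarith
  · positivity

theorem Z1_Wt_le (v : ℝ) : Wt v ≤ 2 + v ^ 2 := by
  unfold Wt
  split_ifs with h
  · have := Real.cos_le_one v
    have h2 : 0 ≤ v ^ 2 := sq_nonneg v
    linarith
  · rw [not_le] at h
    have hpi := Real.pi_pos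
    have h3 : (|v| - π) ^ 2 ≤ |v| ^ 2 := by
      apply pow_le_pow_left₀ (by linarith)
      linarith
    rw [sq_abs] at h3
    have h2 : 0 ≤ v ^ 2 := sq_nonneg v
    linarith

theorem Z1_Wt_meas : Measurable Wt := by
  unfold Wt
  refine Measurable.ite (measurableSet_le measurable_id.norm measurable_const) ?_ ?_
  · exact measurable_const.add Real.measurable_cos
  · fun_prop

theorem Z1_int_Wt {Ω : Type*} [MeasurableSpace Ω] {A : Measure Ω} [IsFiniteMeasure A]
    (U : JetSp A) : Integrable (fun x => 2 + (U.fst x) ^ 2) A :=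
  (integrable_const _).add (Lp.memLp U.fst).integrable_sq

theorem Z1_int {Ω : Type*} [MeasurableSpace Ω] {A : Measure Ω} [IsFiniteMeasure A]
    {w : Ω → ℝ} (hw : Measurable w) {C : ℝ} (hC : ∀ x, |w x| ≤ C) (U : JetSp A) :
    Integrable (fun x => w x * Wt (U.fst x)) A := by
  refine ((Z1_int_Wt U).const_mul C).mono' ?_ ?_
  · exact hw.aestronglyMeasurable.mul
      (Z1_Wt_meas.comp_aemeasurable (Lp.aestronglyMeasurable U.fst).aemeasurable).aestronglyMeasurable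
  · refine Eventually.of_forall fun x => ?_
    rw [Real.norm_eq_abs, abs_mul, abs_of_nonneg (Z1_Wt_nonneg _)]
    exact mul_le_mul (hC x) (Z1_Wt_le _) (Z1_Wt_nonneg _) (le_trans (abs_nonneg _) (hC x))

theorem Z1_weight_abs {Ω : Type*} [MeasurableSpace Ω] {w : Ω → ℝ} (hw : IsWeight w) :
    ∃ C : ℝ, ∀ x, |w x| ≤ C := by
  obtain ⟨_, c, C, hc, h⟩ := hw
  exact ⟨C, fun x => by
    rw [abs_of_nonneg (hc.le.trans (h x).1)]
    exact (h x).2⟩

theorem Z1_weight_pos {Ω : Type*} [MeasurableSpace Ω] {w : Ω → ℝ} (hw : IsWeight w) (x : Ω) :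
    0 < w x := by
  obtain ⟨_, c, C, hc, h⟩ := hw
  exact hc.trans_le (h x).1

theorem Z1_en_nonneg {Ω : Type*} [MeasurableSpace Ω] {A : Measure Ω} {ε : ℝ} (hε : 0 < ε)
    {w : Ω → ℝ} (hw : IsWeight w) (U : JetSp A) : 0 ≤ en ε w U := by
  unfold en
  have h1 : 0 ≤ ∫ x, w x * Wt (U.fst x) ∂A :=
    integral_nonneg fun x => mul_nonneg (Z1_weight_pos hw x).le (Z1_Wt_nonneg _)
  positivity

theorem Z1_en_le {Ω : Type*} [MeasurableSpace Ω] {A : Measure Ω} [IsFiniteMeasure A]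
    {ε : ℝ} (hε : 0 < ε) {w w' : Ω → ℝ} (hw : IsWeight w)
    (hw' : IsWeight w') {M : ℝ} (hM : 1 ≤ M) (hle : ∀ x, w x ≤ M * w' x) (U : JetSp A) :
    en ε w U ≤ M * en ε w' U := by
  obtain ⟨C, hC⟩ := Z1_weight_abs hw
  obtain ⟨C', hC'⟩ := Z1_weight_abs hw'
  have h1 : ∫ x, w x * Wt (U.fst x) ∂A ≤ M * ∫ x, w' x * Wt (U.fst x) ∂A := by
    rw [← integral_const_mul]
    refine integral_mono (Z1_int hw.1 hC U) ((Z1_int hw'.1 hC' U).const_mul M) fun x => ?_
    show w x * Wt (U.fst x) ≤ M * (w' x * Wt (U.fst x))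
    rw [← mul_assoc]
    exact mul_le_mul_of_nonneg_right (hle x) (Z1_Wt_nonneg _)
  have h2 : ε / 2 * ‖U.snd‖ ^ 2 ≤ M * (ε / 2 * ‖U.snd‖ ^ 2) := by
    have : 0 ≤ ε / 2 * ‖U.snd‖ ^ 2 := by positivity
    nlinarith
  have h3 : 1 / ε * ∫ x, w x * Wt (U.fst x) ∂A ≤ 1 / ε * (M * ∫ x, w' x * Wt (U.fst x) ∂A) :=
    mul_le_mul_of_nonneg_left h1 (by positivity)
  unfold en
  have e : M * (ε / 2 * ‖U.snd‖ ^ 2 + 1 / ε * ∫ x, w' x * Wt (U.fst x) ∂A) =
      M * (ε / 2 * ‖U.snd‖ ^ 2) + 1 / ε * (M * ∫ x, w' x * Wt (U.fst x) ∂A) := by ring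
  rw [e]
  exact add_le_add h2 h3

theorem Z1_genus_mono {X : Type*} [NormedAddCommGroup X] {A B : Set X} (h : A ⊆ B) {k : ℕ}
    (hB : GenusLE B k) : GenusLE A k := by
  obtain ⟨f, h1, h2, h3⟩ := hB
  exact ⟨f, h1.mono h, fun x hx => h2 x (h hx), fun x hx => h3 x (h hx)⟩

theorem Z1_bdd {Ω : Type*} [MeasurableSpace Ω] {A : Measure Ω}
    (H : Submodule ℝ (JetSp A)) {ε : ℝ} (hε : 0 < ε) {w : Ω → ℝ} (hw : IsWeight w) (p : ℕ) :
    ∀ c ∈ {c : ℝ | ¬ GenusLE (sub H ε w c) p}, 0 ≤ c := by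
  intro c hc
  by_contra hneg
  apply hc
  have hemp : sub H ε w c = ∅ := by
    rw [Set.eq_empty_iff_forall_notMem]
    rintro u ⟨U, _, _, hU⟩
    have := Z1_en_nonneg hε hw U
    linarith
  rw [hemp]
  exact ⟨fun _ => 0, continuousOn_empty _, fun x hx => absurd hx (Set.notMem_empty x),
    fun x hx => absurd hx (Set.notMem_empty x)⟩

theorem width_le {Ω : Type*} [MeasurableSpace Ω] {A : Measure Ω} [IsFiniteMeasure A]
    {H : Submodule ℝ (JetSp A)} (hL : Large H) {ε : ℝ} (hε : 0 < ε) {w w' : Ω → ℝ} (hw : IsWeight w)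
    (hw' : IsWeight w') {M : ℝ} (hM : 1 ≤ M) (hle : ∀ x, w x ≤ M * w' x) (p : ℕ) :
    width H ε w p ≤ M * width H ε w' p := by
  have hM0 : 0 < M := by linarith
  have h1 : width H ε w p / M ≤ width H ε w' p := by
    unfold width
    refine le_csInf (hL ε hε w' hw' p) fun c hc => ?_
    rw [div_le_iff₀ hM0]
    refine csInf_le ⟨0, Z1_bdd H hε hw p⟩ ?_
    intro hG
    apply hc
    refine Z1_genus_mono ?_ hG
    rintro u ⟨U, hUH, hU, hUc⟩
    refine ⟨U, hUH, hU, (Z1_en_le hε hw hw' hM hle U).trans ?_⟩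
    rw [mul_comm c M]
    exact mul_le_mul_of_nonneg_left hUc hM0.le
  rw [div_le_iff₀ hM0] at h1
  linarith [mul_comm M (width H ε w' p)]

section Surface

variable {S : Type u} [TopologicalSpace S] [CompactSpace S] [T2Space S] [MeasurableSpace S] [BorelSpace S]

theorem CSurf.IsSmooth.continuous {C : CSurf S} {b : S → ℝ} (hb : C.IsSmooth b) : Continuous b := by
  rw [continuous_iff_continuousAt]
  intro x
  obtain ⟨i, hi, hx⟩ := C.cover x
  have h3 : C.φ i x ∈ ball (0 : ℂ) 3 := ball_subset_ball (by norm_num) hx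
  have h1 : ContinuousAt (b ∘ (C.φ i).symm) (C.φ i x) :=
    (hb i).continuousOn.continuousAt (isOpen_ball.mem_nhds h3)
  have h2 : ContinuousAt ((b ∘ (C.φ i).symm) ∘ (C.φ i)) x :=
    ContinuousAt.comp h1 ((C.φ i).continuousAt hi)
  refine h2.congr ?_
  filter_upwards [(C.φ i).open_source.mem_nhds hi] with y hy
  show b ((C.φ i).symm (C.φ i y)) = b y
  rw [(C.φ i).left_inv hy]

theorem Z1_integrable_of_cont {A : Measure S} [IsFiniteMeasure A] {f : S → ℝ}
    (hf : Continuous f) : Integrable f A := by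
  obtain ⟨K, hK⟩ := isCompact_univ.exists_bound_of_continuousOn hf.continuousOn
  exact Integrable.of_bound hf.aestronglyMeasurable K
    (Eventually.of_forall fun x => hK x (Set.mem_univ x))

theorem en_eq_energy {C : CSurf S} [IsFiniteMeasure C.area] {ε : ℝ} (hε : 0 < ε) {w u : S → ℝ}
    (hw : C.IsSmooth w) (hu : C.IsSol ε w u) {U : JetSp C.area} (hU : IsJet U (fun x => u x - π) (C.grad u)) :
    en ε w U = C.energy ε w u := by
  have hnorm : ‖U.snd‖ ^ 2 = ∫ x, ‖C.grad u x‖ ^ 2 ∂C.area := by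
    rw [← real_inner_self_eq_norm_sq, L2.inner_def]
    refine integral_congr_ae ?_
    filter_upwards [hU.2] with x hx
    rw [real_inner_self_eq_norm_sq, hx]
  have hint1 : Integrable (fun x => ‖C.grad u x‖ ^ 2) C.area := by
    have h1 := (Lp.memLp U.snd).integrable_norm_pow (p := 2) (by norm_num)
    refine h1.congr ?_
    filter_upwards [hU.2] with x hx
    rw [hx]
  have hpot : ∫ x, w x * Wt (U.fst x) ∂C.area = ∫ x, w x * (1 - Real.cos (u x)) ∂C.area := by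
    refine integral_congr_ae ?_
    filter_upwards [hU.1] with x hx
    rw [hx, Wt_sub_pi (hu.nonneg x) (hu.le x)]
  have hint2 : Integrable (fun x => w x * (1 - Real.cos (u x))) C.area :=
    Z1_integrable_of_cont (hw.continuous.mul
      (continuous_const.sub (Real.continuous_cos.comp hu.smooth.continuous)))
  unfold en CSurf.energy
  rw [hnorm, hpot, integral_add (hint1.const_mul _) (hint2.const_mul _), integral_const_mul,
    integral_const_mul]

theorem Z1_smooth_exp {C : CSurf S} {b : S → ℝ} (hb : C.IsSmooth b) (t : ℝ) :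
    C.IsSmooth (fun x => Real.exp (t * b x)) := by
  intro i
  have h1 : ContDiffOn ℝ ∞ (fun z => t * (b ∘ (C.φ i).symm) z) (ball 0 3) :=
    contDiffOn_const.mul (hb i)
  exact h1.exp

variable (S) in
theorem intC (h1 : Sob S) (h2 : Reg S) (h3 : LargeS S) (h4 : Env.{u}) (h5 : Weyl S) (h6 : Def S) : IntC S := by
  intro C b hb hneg δ hδ
  by_contra hcon
  push Not at hcon
  obtain ⟨hfin, hE, _⟩ := h1 C
  have hne : Nonempty S := by
    by_contra hemp
    rw [not_nonempty_iff] at hemp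
    rw [integral_of_isEmpty] at hneg
    exact lt_irrefl 0 hneg
  have hbc : Continuous b := hb.continuous
  obtain ⟨K, hK⟩ := isCompact_univ.exists_bound_of_continuousOn hbc.continuousOn
  have hbK : ∀ x, |b x| ≤ K := fun x => hK x (Set.mem_univ x)
  obtain ⟨x0⟩ := hne
  have hne : Nonempty S := ⟨x0⟩
  have hK0 : 0 ≤ K := le_trans (abs_nonneg _) (hbK x0)
  have hbi : Integrable b C.area := Z1_integrable_of_cont hbc
  set B : ℝ := ∫ x, b x ∂C.area with hB
  set A0 : ℝ := ∫ _ : S, (1 : ℝ) ∂C.area with hA0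
  have hA00 : 0 ≤ A0 := integral_nonneg fun _ => zero_le_one
  have hec : ∀ t : ℝ, Continuous (fun x => Real.exp (t * b x)) := fun t =>
    Real.continuous_exp.comp (continuous_const.mul hbc)
  have hei : ∀ t : ℝ, Integrable (fun x => Real.exp (t * b x)) C.area := fun t =>
    Z1_integrable_of_cont (hec t)
  set Ar : ℝ → ℝ := fun t => ∫ x, Real.exp (t * b x) ∂C.area with hAr
  have hAr0 : ∀ t, 0 ≤ Ar t := fun t => integral_nonneg fun _ => (Real.exp_pos _).le
  -- lower and upper bound of the area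
  have hlow : ∀ t, A0 + t * B ≤ Ar t := by
    intro t
    have e1 : A0 + t * B = ∫ x, (1 + t * b x) ∂C.area := by
      rw [integral_add (integrable_const _) (hbi.const_mul t), integral_const_mul]
    rw [e1]
    refine integral_mono ((integrable_const _).add (hbi.const_mul t)) (hei t) fun x => ?_
    show 1 + t * b x ≤ Real.exp (t * b x)
    have := Real.add_one_le_exp (t * b x)
    linarith
  have hup : ∀ t, 0 < t → t * K ≤ 1 → Ar t ≤ A0 + t * B + t ^ 2 * K ^ 2 * A0 := by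
    intro t ht htK
    have i1 : Integrable (fun x => 1 + t * b x) C.area :=
      (integrable_const _).add (hbi.const_mul t)
    have i2 : Integrable (fun _ : S => t ^ 2 * K ^ 2 * 1) C.area := integrable_const _
    have e1 : A0 + t * B + t ^ 2 * K ^ 2 * A0 = ∫ x, ((1 + t * b x) + t ^ 2 * K ^ 2 * 1) ∂C.area := by
      rw [integral_add i1 i2, integral_add (integrable_const _) (hbi.const_mul t),
        integral_const_mul, integral_const_mul]
    rw [e1]
    refine integral_mono (hei t) (i1.add i2) fun x => ?_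
    show Real.exp (t * b x) ≤ (1 + t * b x) + t ^ 2 * K ^ 2 * 1
    have h7 : |t * b x| ≤ 1 := by
      rw [abs_mul, abs_of_pos ht]
      exact (mul_le_mul_of_nonneg_left (hbK x) ht.le).trans htK
    have h8 := Real.abs_exp_sub_one_sub_id_le h7
    have h9 := (abs_le.1 h8).2
    have h10 : (t * b x) ^ 2 ≤ t ^ 2 * K ^ 2 := by
      rw [mul_pow]
      refine mul_le_mul_of_nonneg_left ?_ (by positivity)
      rw [← sq_abs (b x)]
      exact pow_le_pow_left₀ (abs_nonneg _) (hbK x) 2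
    linarith
  set δ' : ℝ := min δ 1 with hδ'
  have hδ'0 : 0 < δ' := lt_min hδ one_pos
  -- the choice of `t₁`
  obtain ⟨t₁, ht₁0, ht₁δ, ht₁A⟩ : ∃ t₁ : ℝ, 0 < t₁ ∧ t₁ < δ' ∧ Ar t₁ < A0 := by
    have hBn : 0 < -B := by linarith
    set m : ℝ := min (δ' / 2) (min (1 / (K + 1)) (-B / (2 * (K ^ 2 * A0 + 1)))) with hm
    have hm0 : 0 < m := by
      refine lt_min (by positivity) (lt_min (by positivity) ?_)
      exact div_pos hBn (by positivity)
    have hm1 : m ≤ δ' / 2 := min_le_left _ _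
    have hm2 : m ≤ 1 / (K + 1) := (min_le_right _ _).trans (min_le_left _ _)
    have hm3 : m ≤ -B / (2 * (K ^ 2 * A0 + 1)) := (min_le_right _ _).trans (min_le_right _ _)
    refine ⟨m, hm0, by linarith, ?_⟩
    have hmK : m * K ≤ 1 := by
      rw [le_div_iff₀ (by positivity)] at hm2
      nlinarith
    refine (hup m hm0 hmK).trans_lt ?_
    rw [le_div_iff₀ (by positivity)] at hm3
    have h7 : m * (K ^ 2 * A0) < -B := by nlinarith
    have h8 : m * (m * (K ^ 2 * A0)) < m * (-B) := mul_lt_mul_of_pos_left h7 hm0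
    nlinarith
  obtain ⟨t₀, ht₀0, ht₀₁, ht₀A⟩ : ∃ t₀ : ℝ, 0 < t₀ ∧ t₀ < t₁ ∧ Ar t₁ < Ar t₀ := by
    have hBn : 0 < -B := by linarith
    have hg : 0 < A0 - Ar t₁ := by linarith
    set m : ℝ := min (t₁ / 2) ((A0 - Ar t₁) / (2 * -B)) with hm
    have hm0 : 0 < m := lt_min (by positivity) (div_pos hg (by positivity))
    have hm1 : m ≤ t₁ / 2 := min_le_left _ _
    have hm2 : m ≤ (A0 - Ar t₁) / (2 * -B) := min_le_right _ _
    refine ⟨m, hm0, by linarith, ?_⟩
    rw [le_div_iff₀ (by positivity)] at hm2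
    have := hlow m
    nlinarith
  set s₀ : ℝ := √(Ar t₀) with hs₀
  set s₁ : ℝ := √(Ar t₁) with hs₁
  have hs : s₁ < s₀ := Real.sqrt_lt_sqrt (hAr0 t₁) ht₀A
  obtain ⟨abar, habar, hW⟩ := h5 hne C
  set w : ℝ → S → ℝ := fun t x => Real.exp (t * b x) with hw
  have hws : ∀ t, C.IsSmooth (w t) := fun t => Z1_smooth_exp hb t
  have hwp : ∀ t x, 0 < w t x := fun t x => Real.exp_pos _
  have hww : ∀ t, IsWeight (w t) := by
    intro t
    refine ⟨(hec t).measurable, Real.exp (-(|t| * K)), Real.exp (|t| * K), Real.exp_pos _,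
      fun x => ?_⟩
    have h7 : |t * b x| ≤ |t| * K := by
      rw [abs_mul]
      exact mul_le_mul_of_nonneg_left (hbK x) (abs_nonneg _)
    have h8 := abs_le.1 h7
    exact ⟨Real.exp_le_exp.2 h8.1, Real.exp_le_exp.2 h8.2⟩
  set d : ℝ := abar * (s₀ - s₁) / 4 with hd
  have hd0 : 0 < d := by
    have : 0 < s₀ - s₁ := by linarith
    positivity
  obtain ⟨pa, hpa⟩ := hW (w t₀) (hws t₀) (hwp t₀) d hd0
  obtain ⟨pb, hpb⟩ := hW (w t₁) (hws t₁) (hwp t₁) d hd0
  set R : ℝ := (t₁ - t₀) / (abar * (s₀ - s₁) / 2) with hR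
  have hden : 0 < abar * (s₀ - s₁) / 2 := by
    have : 0 < s₀ - s₁ := by linarith
    positivity
  have hR0 : 0 < R := div_pos (by linarith) hden
  set p : ℕ := max (max pa pb) (⌈R ^ 2⌉₊ + 1) with hp
  have hppa : pa ≤ p := (le_max_left _ _).trans (le_max_left _ _)
  have hppb : pb ≤ p := (le_max_right _ _).trans (le_max_left _ _)
  have hpR : R ^ 2 < p := by
    have h6 : ⌈R ^ 2⌉₊ + 1 ≤ p := le_max_right _ _
    have h7 : (⌈R ^ 2⌉₊ : ℝ) + 1 ≤ p := by exact_mod_cast h6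
    have h8 := Nat.le_ceil (R ^ 2)
    linarith
  have hsqp : R < √(p : ℝ) := Real.lt_sqrt_of_sq_lt hpR
  have hpbig : t₁ - t₀ < abar * (s₀ - s₁) / 2 * √(p : ℝ) := by
    rw [hR, div_lt_iff₀ hden] at hsqp
    linarith
  obtain ⟨⟨ε0, hε0, hupW⟩, _⟩ := hpb p hppb
  obtain ⟨_, hlowW⟩ := hpa p hppa
  have hLg : Large C.HS := h3 hne C
  -- (3)
  set M : ℝ := Real.exp (K * (t₁ - t₀)) with hM
  have hM1 : 1 ≤ M := Real.one_le_exp (mul_nonneg hK0 (by linarith))
  have hmono : ∀ ε ∈ Set.Ioo 0 ε0, ∀ t ∈ Set.Icc t₀ t₁,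
      width C.HS ε (w t) p ≤ M * ((abar * s₁ + d) * √(p : ℝ)) := by
    intro ε hε t ht
    have h7 := width_le hLg hε.1 (hww t) (hww t₁) hM1 (fun x => by
      rw [hM, hw]
      simp only
      rw [← Real.exp_add]
      apply Real.exp_le_exp.2
      have h8 : (t - t₁) * b x ≤ K * (t₁ - t₀) := by
        calc (t - t₁) * b x ≤ |(t - t₁) * b x| := le_abs_self _
          _ = (t₁ - t) * |b x| := by
              rw [abs_mul, abs_sub_comm, abs_of_nonneg (by linarith [ht.2])]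
          _ ≤ (t₁ - t₀) * K := by
              refine mul_le_mul ?_ (hbK x) (abs_nonneg _) (by linarith)
              linarith [ht.1]
          _ = K * (t₁ - t₀) := mul_comm _ _
      linarith) p
    have h9 := hupW ε hε
    exact h7.trans (mul_le_mul_of_nonneg_left h9 (by linarith))
  -- (4)
  have hclaim : ∃ ε2 > 0, ∀ ε ∈ Set.Ioo 0 ε2, ∀ t ∈ Set.Icc t₀ t₁, ∀ U, IsWeak C.HS ε (w t) U →
      en ε (w t) U = width C.HS ε (w t) p →
      -1 ≤ 1 / ε * ∫ x, w t x * b x * Wt (U.fst x) ∂C.area := by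
    by_contra hno
    push Not at hno
    have hj : ∀ j : ℕ, ∃ (ε t : ℝ) (u : S → ℝ), ε ∈ Set.Ioo 0 (min ε0 (1 / ((j : ℝ) + 1))) ∧
        t ∈ Set.Icc t₀ t₁ ∧ C.IsSol ε (w t) u ∧
        C.energy ε (w t) u ≤ M * ((abar * s₁ + d) * √(p : ℝ)) ∧
        1 / ε * ∫ x, w t x * b x * (1 - Real.cos (u x)) ∂C.area < -1 := by
      intro j
      obtain ⟨ε, hε, t, ht, U, hU1, hU2, hU3⟩ := hno (min ε0 (1 / ((j : ℝ) + 1)))
        (lt_min hε0 (by positivity))
      obtain ⟨u, hu, hju⟩ := h2 C (w t) (hws t) (hwp t) ε hε.1 U hU1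
      refine ⟨ε, t, u, hε, ht, hu, ?_, ?_⟩
      · rw [← en_eq_energy hε.1 (hws t) hu hju, hU2]
        exact hmono ε ⟨hε.1, hε.2.trans_le (min_le_left _ _)⟩ t ht
      · have e1 : ∫ x, w t x * b x * Wt (U.fst x) ∂C.area =
            ∫ x, w t x * b x * (1 - Real.cos (u x)) ∂C.area := by
          refine integral_congr_ae ?_
          filter_upwards [hju.1] with x hx
          rw [hx, Wt_sub_pi (hu.nonneg x) (hu.le x)]
        rwa [e1] at hU3
    choose ε t u hε ht hu hen hlt using hj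
    obtain ⟨τ, hτ, σ, hσ, hlim⟩ := isCompact_Icc.tendsto_subseq ht
    have hτδ : τ ∈ Set.Ioo 0 δ :=
      ⟨lt_of_lt_of_le ht₀0 hτ.1, lt_of_le_of_lt hτ.2 (ht₁δ.trans_le (min_le_left _ _))⟩
    have hεlim : Tendsto ε atTop (𝓝 0) := by
      refine squeeze_zero (fun j => (hε j).1.le)
        (fun j => ((hε j).2.trans_le (min_le_right _ _)).le) ?_
      exact tendsto_one_div_add_atTop_nhds_zero_nat
    have hδ1 : δ' ≤ 1 := min_le_right _ _
    have hD := h6 C b hb (ε ∘ σ) (t ∘ σ) τ (fun j => u (σ j)) (fun j => (hε (σ j)).1)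
      (hεlim.comp hσ.tendsto_atTop)
      (fun j => ⟨ht₀0.le.trans (ht (σ j)).1, (ht (σ j)).2.trans (by linarith)⟩)
      hlim (fun j => hu (σ j)) ⟨_, fun j => hen (σ j)⟩
      (fun γ T hγ => hcon τ hτδ γ T hγ) (1 / 2) (by norm_num)
    obtain ⟨j, hj⟩ := hD.exists
    have h7 := hlt (σ j)
    have h8 : -(1 / 2) ≤ 1 / ε (σ j) * ∫ x, w (t (σ j)) x * b x * (1 - Real.cos (u (σ j) x))
        ∂C.area := hj
    linarith
  obtain ⟨ε2, hε2, hcl⟩ := hclaim
  -- (5)
  obtain ⟨ε, hε, hlowε⟩ := hlowW (min ε0 ε2) (lt_min hε0 hε2)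
  have hεp : 0 < ε := hε.1
  have hEnv := h4 S C.area C.HS hE hLg b hbc.measurable ⟨K, hbK⟩ ε p t₀ t₁ 1 hεp ht₀₁.le
    (fun t ht U hU1 hU2 => hcl ε ⟨hεp, hε.2.trans_le (min_le_right _ _)⟩ t ht U hU1 hU2)
  have hupε := hupW ε ⟨hεp, hε.2.trans_le (min_le_left _ _)⟩
  have h7 : (abar * s₀ - d) * √(p : ℝ) ≤ width C.HS ε (w t₀) p := hlowε
  have h8 : width C.HS ε (w t₁) p ≤ (abar * s₁ + d) * √(p : ℝ) := hupε
  have h9 : width C.HS ε (w t₀) p - 1 * (t₁ - t₀) ≤ width C.HS ε (w t₁) p := hEnv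
  have h10 : (abar * s₀ - d) * √(p : ℝ) - (abar * s₁ + d) * √(p : ℝ) =
      abar * (s₀ - s₁) / 2 * √(p : ℝ) := by
    rw [hd]
    ring
  linarith

end Surface

end Pool.Agent.Helper53.CL
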