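import Pool.Agent.Helper53.CL.Iface
import Pool.Agent.Helper82.PE.Iface
import Pool.Agent.Helper82.GS.AreaExists

/-!
# CL-Z2: from conformal surfaces to Riemannian metrics

Proof of `int`.  Take `C` from `Iso`.  The area measure is unique (`exists_unique_area`), so `μ = C.area`.  `b` is smooth
on `C`.  `IntC` gives `t, γ, T`; `exp (t b)` is smooth in the charts `e`; the third part of `Iso` for `w = exp (t b)` turns
`C.IsGeo` into `IsGeodesic`.
`minMax`: take `g' = g.scale (exp (t b))`.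
-/

namespace Pool.Agent.Helper53.CL

open MeasureTheory Filter Topology Metric Iface Pool.Agent.Helper82.GS
open scoped ContDiff Real Manifold

universe u

variable (S : Type u) [TopologicalSpace S] [CompactSpace S] [T2Space S] [ChartedSpace P2 S]
  [IsManifold (modelWithCornersSelf ℝ P2) ∞ S] [MeasurableSpace S] [BorelSpace S]

theorem int (h1 : Iso S) (h2 : IntC S) : Int S := by
  intro g μ hμ b hb hneg δ hδ
  obtain ⟨C, hC, hsm, hgeo⟩ := h1 g
  have hμC : μ = C.area := (exists_unique_area g).unique hμ hC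
  rw [hμC] at hneg
  obtain ⟨t, ht, γ, T, hcg, hint⟩ := h2 C b (hsm b hb) hneg δ hδ
  have hw : ∀ e ∈ atlas P2 S,
      ContDiffOn ℝ ∞ ((fun x => Real.exp (t * b x)) ∘ e.symm) e.target := fun e he =>
    (contDiffOn_const.mul (hb e he)).exp
  exact ⟨t, ht, hw, γ, T, ⟨hgeo _ hw (fun _ => Real.exp_pos _) γ hcg.1, hcg.2.1, hcg.2.2⟩, hint⟩

omit [CompactSpace S] [T2Space S] [IsManifold (modelWithCornersSelf ℝ P2) ∞ S] [BorelSpace S] in
theorem minMax (h : Int S) : Pool.Agent.Helper82.PE.MinMaxClosing S := by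
  intro g μ hμ b hb hneg δ hδ
  obtain ⟨t, ht, hw, γ, T, hcg, hint⟩ := h g μ hμ b hb hneg δ hδ
  exact ⟨t, ht.1.le, ht.2, _, fun e _ y _ => rfl, γ, T, hcg, hint⟩

end Pool.Agent.Helper53.CL
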